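import Pool.Agent.Y116.UV.Defs
import Pool.Agent.U738.CX.FamDefs

/-!
# The Beilinson–Soulé vanishing for schemes: definitions
-/

set_option autoImplicit false

open CategoryTheory AlgebraicGeometry Pool.Agent.Y116.UV Pool.Agent.U738.CX

namespace Pool.Agent.U738.BS

universe w

/-- The known properties of the higher Chow groups `A j m X = CH_j(X, m)` (dimension `j`, also negative, as
in the cycle complexes) of the separated schemes `X` of finite type over `R` which are used. -/
structure IsChow {R : Type} [CommRing R] (A : ℤ → ℤ → Sch R → ModuleCat.{w} ℤ) : Prop where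
  /-- isomorphic schemes -/
  iso : ∀ (j m : ℤ) {X Y : Sch R}, FT True X → Nonempty (X ≅ Y) → Nonempty (A j m X ≅ A j m Y)
  /-- localization: exactness of `CH_j(Z, m) → CH_j(X, m) → CH_j(U, m)` -/
  localization : ∀ (j m : ℤ) {Z X U : Sch R} (i : Z ⟶ X) (u : U ⟶ X), FT True X → IsTriple i u →
    ∃ (f : A j m Z ⟶ A j m X) (g : A j m X ⟶ A j m U), Function.Exact f.hom g.hom
  /-- localization and homotopy invariance: exactness of
  `CH_{j-1}(X, m) = CH_j(X × 𝔸¹, m) → CH_j(X × 𝔾_m, m) → CH_j(X, m - 1)`, for `X = Spec B` -/
  torus : ∀ (j m : ℤ) (B : Type) [CommRing B] [Algebra R B] [Algebra.FiniteType R B],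
    ∃ (f : A (j - 1) m (aff R B) ⟶ A j m (aff R (LaurentPolynomial B)))
      (g : A j m (aff R (LaurentPolynomial B)) ⟶ A j (m - 1) (aff R B)),
      Function.Exact f.hom g.hom

/-- **Vanishing in the sense of Beilinson and Soulé.** For all `s ≥ dim X` and all integers `n`, `m` with
`m ≥ 2n`, `(n, m) ≠ (0, 0)`, the group `CH_{s-n}(X, m)` is zero. For regular equidimensional `X` and
`s = dim X`, `n ≥ 1` these are the groups `H^i(X, ℤ(n))`, `i = 2n - m ≤ 0`; the cases `n ≤ 0` and
`s > dim X` are trivial, respectively consequences. -/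
def Vanishes {R : Type} [CommRing R] (A : ℤ → ℤ → Sch R → ModuleCat.{w} ℤ) (X : Sch R) : Prop :=
  ∀ s : ℕ, topologicalKrullDim X.left ≤ s → ∀ n m : ℤ, 2 * n ≤ m → (n ≠ 0 ∨ m ≠ 0) →
    Subsingleton (A (s - n) m X)

/-- The smallest class of schemes which contains
* (`dim`) the affine schemes `Spec S` of finite type over `R` of dimension at most `N`;
* (`terms`) the affine schemes of any dimension given by any set `G` of polynomials with at most two terms,
  with coefficients in such a ring `S`;
* (`graded`) the affine schemes of any dimension with an action of a diagonalizable group of complexity at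
  most `N`;
and is closed under isomorphisms, under pasting (if a closed subscheme `Z` of `X` and its complement
`U` are in the class, so is `X`) and under products of affine schemes with the multiplicative group. -/
inductive Pasted {R : Type} [CommRing R] (N : ℕ) : Sch R → Prop
  | dim (S : Type) [CommRing S] [Algebra R S] [Algebra.FiniteType R S] :
      ringKrullDim S ≤ N → Pasted N (aff R S)
  | terms (S : Type) [CommRing S] [Algebra R S] [Algebra.FiniteType R S] (m : ℕ)
      (G : Set (MvPolynomial (Fin m) S)) : ringKrullDim S ≤ N → (∀ g ∈ G, g.support.card ≤ 2) →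
      Pasted N (aff R (MvPolynomial (Fin m) S ⧸ Ideal.span G))
  | graded (A : Type) [CommRing A] [Algebra R A] [Algebra.FiniteType R A] (Γ : Type)
      [AddCommGroup Γ] [DecidableEq Γ] (𝒜 : Γ → Submodule R A) [GradedAlgebra 𝒜] :
      ComplexityLE 𝒜 N → Pasted N (aff R A)
  | iso {X Y : Sch R} : FT True X → Nonempty (X ≅ Y) → Pasted N X → Pasted N Y
  | total {Z X U : Sch R} (i : Z ⟶ X) (u : U ⟶ X) : FT True X → IsTriple i u →
      Pasted N Z → Pasted N U → Pasted N X
  | times (A : Type) [CommRing A] [Algebra R A] [Algebra.FiniteType R A] : Pasted N (aff R A) →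
      Pasted N (aff R (LaurentPolynomial A))

end Pool.Agent.U738.BS
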