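import Pool.Agent.U738.BS.Defs
import Pool.Agent.U738.CX.Fam

/-!
# The Beilinson–Soulé vanishing for the schemes built from schemes of small dimension
-/

set_option autoImplicit false

open CategoryTheory AlgebraicGeometry Pool.Agent.Y116.UV Pool.Agent.U738.BN Pool.Agent.U738.CX

namespace Pool.Agent.U738.BS

universe w

variable {R : Type} [CommRing R] {A : ℤ → ℤ → Sch R → ModuleCat.{w} ℤ}

/-- the dimension of the torus over `B` -/
lemma dim_laurent (B : Type) [CommRing B] : ringKrullDim B + 1 ≤ ringKrullDim (LaurentPolynomial B) := by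
  let r : LaurentPolynomial B := algebraMap (Polynomial B) (LaurentPolynomial B)
    (Polynomial.X - Polynomial.C 1)
  have h1 : (Polynomial.X - Polynomial.C (1 : B)) ∈ nonZeroDivisors (Polynomial B) :=
    (Polynomial.monic_X_sub_C 1).mem_nonZeroDivisors
  have h2 : r ∈ nonZeroDivisors (LaurentPolynomial B) := by
    have h3 := IsLocalization.map_nonZeroDivisors_le (Submonoid.powers (Polynomial.X : Polynomial B))
      (LaurentPolynomial B)
    exact h3 ⟨_, h1, rfl⟩
  refine le_trans ?_ (ringKrullDim_quotient_succ_le_of_nonZeroDivisor h2)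
  gcongr
  let e : LaurentPolynomial B →+* B := LaurentPolynomial.eval₂ (RingHom.id B) 1
  have h4 : e r = 0 := by
    simp [e, r, LaurentPolynomial.algebraMap_eq_toLaurent]
  let e' : LaurentPolynomial B ⧸ Ideal.span {r} →+* B := Ideal.Quotient.lift _ e (by
    intro a ha
    obtain ⟨b, rfl⟩ := Ideal.mem_span_singleton'.mp ha
    rw [map_mul, h4, mul_zero])
  refine ringKrullDim_le_of_surjective e' ?_
  intro b
  refine ⟨Ideal.Quotient.mk _ (LaurentPolynomial.C b), ?_⟩
  change e (LaurentPolynomial.C b) = b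
  simp [e]

lemma topDim (B : Type) [CommRing B] [Algebra R B] :
    topologicalKrullDim (aff R B).left = ringKrullDim B := by
  change topologicalKrullDim (PrimeSpectrum B) = _
  exact PrimeSpectrum.topologicalKrullDim_eq_ringKrullDim B

lemma le_of_succ {a : WithBot ℕ∞} (h0 : 0 ≤ a) {t : ℕ} (h : a + 1 ≤ ((t + 1 : ℕ) : WithBot ℕ∞)) :
    a ≤ (t : WithBot ℕ∞) := by
  induction a with
  | bot => exact bot_le
  | coe a =>
    induction a with
    | top => 
      exfalso
      have h1 : ((⊤ : ℕ∞) : WithBot ℕ∞) + 1 = ((⊤ : ℕ∞) : WithBot ℕ∞) := rfl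
      rw [h1] at h
      have h2 : (⊤ : ℕ∞) ≤ ((t + 1 : ℕ) : ℕ∞) := by exact_mod_cast h
      exact absurd h2 (by simp)
    | coe a =>
      have h1 : a + 1 ≤ t + 1 := by exact_mod_cast h
      have h2 : a ≤ t := by omega
      exact_mod_cast h2

lemma pos_of_succ {a : WithBot ℕ∞} (h0 : 0 ≤ a) {s : ℕ} (h : a + 1 ≤ (s : WithBot ℕ∞)) :
    ∃ t, s = t + 1 := by
  cases s with
  | zero =>
    exfalso
    have h2 : (1 : WithBot ℕ∞) ≤ ((0 : ℕ) : WithBot ℕ∞) :=
      le_trans (le_trans (zero_add (1 : WithBot ℕ∞)).symm.le (add_le_add_left h0 1)) h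
    have h3 : 1 ≤ 0 := by exact_mod_cast h2
    omega
  | succ t => exact ⟨t, rfl⟩

lemma sub_of_exact {M N P : ModuleCat.{w} ℤ} {f : M ⟶ N} {g : N ⟶ P}
    (h : Function.Exact f.hom g.hom) (hM : Subsingleton M) (hP : Subsingleton P) :
    Subsingleton N := by
  have h0 : ∀ x : N, x = 0 := by
    intro x
    obtain ⟨u, hu⟩ := (h x).mp (Subsingleton.elim _ _)
    rw [← hu, Subsingleton.elim u 0, map_zero]
  exact ⟨fun x y => by rw [h0 x, h0 y]⟩

lemma van_iso (h : IsChow A) {X Y : Sch R} (hX : FT True X) (e : Nonempty (X ≅ Y))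
    (hP : Vanishes A X) : Vanishes A Y := by
  intro s hs n m hm hnm
  obtain ⟨e'⟩ := e
  have h1 : IsIso e'.hom.left := inferInstanceAs (IsIso ((Over.forget _).map e'.hom))
  have h2 : topologicalKrullDim X.left ≤ s :=
    (e'.hom.left.isOpenEmbedding.isInducing.topologicalKrullDim_le).trans hs
  obtain ⟨e2⟩ := h.iso (s - n) m hX ⟨e'⟩
  have := hP s h2 n m hm hnm
  exact e2.toLinearEquiv.symm.toEquiv.subsingleton

lemma van_total (h : IsChow A) {Z X U : Sch R} {i : Z ⟶ X} {u : U ⟶ X} (hX : FT True X)
    (ht : IsTriple i u) (hZ : Vanishes A Z) (hU : Vanishes A U) : Vanishes A X := by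
  intro s hs n m hm hnm
  obtain ⟨f, g, hfg⟩ := h.localization (s - n) m i u hX ht
  have c1 := ht.closed
  have c2 := ht.opened
  refine sub_of_exact hfg (hZ s ?_ n m hm hnm) (hU s ?_ n m hm hnm)
  · exact (i.left.isClosedEmbedding.isInducing.topologicalKrullDim_le).trans hs
  · exact (u.left.isOpenEmbedding.isInducing.topologicalKrullDim_le).trans hs

lemma van_times (h : IsChow A) (B : Type) [CommRing B] [Algebra R B] [Algebra.FiniteType R B]
    (hB : Vanishes A (aff R B)) : Vanishes A (aff R (LaurentPolynomial B)) := by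
  by_cases hnt : Nontrivial B
  · intro s hs n m hm hnm
    rw [topDim] at hs
    have h0 := (dim_laurent B).trans hs
    have h00 : (0 : WithBot ℕ∞) ≤ ringKrullDim B := ringKrullDim_nonneg_of_nontrivial
    obtain ⟨t, rfl⟩ := pos_of_succ h00 h0
    have h3 : topologicalKrullDim (aff R B).left ≤ t := by
      rw [topDim]
      exact le_of_succ h00 h0
    obtain ⟨f, g, hfg⟩ := h.torus ((t + 1 : ℕ) - n) m B
    refine sub_of_exact hfg ?_ ?_
    · have := hB t h3 n m hm hnm
      have e : ((t + 1 : ℕ) : ℤ) - n - 1 = t - n := by push_cast; ring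
      rwa [e]
    · have := hB t h3 (n - 1) (m - 1) (by omega) (by omega)
      have e : ((t + 1 : ℕ) : ℤ) - n = t - (n - 1) := by push_cast; ring
      rwa [e]
  · rw [not_nontrivial_iff_subsingleton] at hnt
    have h1 : Subsingleton (LaurentPolynomial B) := Module.subsingleton B _
    have e : LaurentPolynomial B ≃ₐ[R] B :=
      { toFun := fun _ => 0
        invFun := fun _ => 0
        left_inv := fun _ => Subsingleton.elim _ _
        right_inv := fun _ => Subsingleton.elim _ _
        map_mul' := fun _ _ => Subsingleton.elim _ _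
        map_add' := fun _ _ => Subsingleton.elim _ _
        commutes' := fun _ => Subsingleton.elim _ _ }
    exact van_iso h (ft_aff True) ⟨affIso e⟩ hB

theorem posD (h : IsChow A) {N : WithBot ℕ∞} (hN : ForDimension N (Vanishes A)) :
    PosD True (Vanishes A) N where
  iso hX e hP := van_iso h hX e hP
  total _ _ hX ht hZ hU := van_total h hX ht hZ hU
  times B _ _ _ hB := van_times h B hB
  dim := hN

theorem pasted [IsNoetherianRing R] (h : IsChow A) {N : ℕ} (hN : ForDimension N (Vanishes A))
    {X : Sch R} (hX : Pasted N X) : Vanishes A X := by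
  have hP := posD h hN
  induction hX with
  | dim S hS => exact hN S hS
  | terms S m G hS hG => exact two_terms hP S hS m G hG
  | graded A Γ 𝒜 hd => exact for_complexity hP A Γ 𝒜 hd
  | iso hX e _ ih => exact van_iso h hX e ih
  | total i j hX ht _ _ ih1 ih2 => exact van_total h hX ht ih1 ih2
  | times A _ ih => exact van_times h A ih

end Pool.Agent.U738.BS
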